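import Pool.Agent.L7h34.BO.StmQ
import Pool.Agent.H319B.BI7

set_option autoImplicit false

/-! Project BO (MP_f85b9b_nt), part MTP: reduction modulo two of a product of two factors. -/

namespace Pool.Agent.L7h73.BO

open Polynomial Pool.Agent.H319B Pool.Agent.L7h34.BO

theorem aux (n : ℕ) (hn : 5 ≤ n) (ho : Odd n) (g : ℚ[X]) (hg : g.Monic) (hgR : g ∣ Rn n) :
    ∃ (G : ℤ[X]) (d : ℕ), Odd d ∧ 0 < d ∧ G.map (Int.castRingHom ℚ) = C (d : ℚ) * g ∧
      G.map (Int.castRingHom (ZMod 2)) ∣ (1 + X) ^ (n - 2) + X ^ (n - 2) := by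
  obtain ⟨h, hh⟩ := hgR
  obtain ⟨hB, hRm, hdeg⟩ := Rn_spec n (by omega) ho
  have hhm : h.Monic := by
    rw [hh] at hRm
    exact Polynomial.Monic.of_mul_monic_left hg hRm
  obtain ⟨P, hPQ, hP2⟩ := twoD_int n (by omega) ho
  have hDodd := D_odd n
  have hDpos : 0 < D n := hDodd.pos
  have hEm : (X * (X - C (1 / 2)) * (X - C 1) : ℚ[X]).Monic :=
    (monic_X.mul (monic_X_sub_C _)).mul (monic_X_sub_C _)
  obtain ⟨E1, P2, c, c', hc, hc', hcc, hE1, hP2'⟩ := gauss_fac P (2 * D n) (by positivity)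
    (X * (X - C (1 / 2)) * (X - C 1)) (g * h) hEm (hg.mul hhm) (by
      rw [hPQ, hB, hh]
      push_cast
      ring)
  -- c is even
  have hcoef : (2 : ℤ) * E1.coeff 1 = c := by
    have h1 := congrArg (fun q : ℚ[X] => q.coeff 1) hE1
    rw [bi7_E] at h1
    simp only [coeff_map, coeff_C_mul, coeff_add, coeff_sub, coeff_X_pow, coeff_X_one] at h1
    norm_num at h1
    have h2 : ((2 * E1.coeff 1 : ℤ) : ℚ) = ((c : ℤ) : ℚ) := by
      push_cast
      rw [h1]
      ring
    exact_mod_cast h2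
  obtain ⟨c1, hc1⟩ : ∃ c1 : ℕ, c = 2 * c1 := by
    have : (2 : ℤ) ∣ (c : ℤ) := ⟨_, hcoef.symm⟩
    have h2 : (2 : ℕ) ∣ c := by exact_mod_cast this
    exact h2
  have hc1D : c1 * c' = D n := by
    have : 2 * (c1 * c') = 2 * D n := by rw [← hcc, hc1]; ring
    omega
  -- P1
  have hP1 : (C (c1 : ℤ) * P2).map (Int.castRingHom ℚ) = C ((D n : ℕ) : ℚ) * (g * h) := by
    rw [Polynomial.map_mul, hP2', ← hc1D, Polynomial.map_C]
    push_cast
    rw [C_mul]
    simp only [Int.cast_natCast, eq_intCast]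
    ring
  have hPfac : P = X * (2 * X - 1) * (X - 1) * (C (c1 : ℤ) * P2) := by
    apply bi7_inj
    show P.map (Int.castRingHom ℚ) = (X * (2 * X - 1) * (X - 1) * (C (c1 : ℤ) * P2)).map (Int.castRingHom ℚ)
    rw [Polynomial.map_mul, hP1, hPQ, hB, hh]
    simp only [Polynomial.map_mul, Polynomial.map_sub, Polynomial.map_X, Polynomial.map_one, Polynomial.map_ofNat]
    have h1 : (C (2 * (D n : ℚ)) : ℚ[X]) = 2 * C ((D n : ℕ) : ℚ) := by
      rw [C_mul]; rfl
    have h2 : (2 : ℚ[X]) * C (1 / 2) = 1 := by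
      have : (2 : ℚ[X]) = C 2 := rfl
      rw [this, ← C_mul]
      norm_num
    rw [h1, C_1]
    linear_combination (- X * (X - 1) * C ((D n : ℕ) : ℚ) * (g * h)) * h2
  -- Gauss
  obtain ⟨G, H, d, d', hd, hd', hdd, hG, hH⟩ := gauss_fac (C (c1 : ℤ) * P2) (D n) hDpos g h hg hhm hP1
  have hdodd : Odd d := by
    rw [← hdd] at hDodd
    exact (Nat.odd_mul.mp hDodd).1
  have hGH : C (c1 : ℤ) * P2 = G * H := by
    apply bi7_inj
    show (C (c1 : ℤ) * P2).map (Int.castRingHom ℚ) = (G * H).map (Int.castRingHom ℚ)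
    rw [hP1, Polynomial.map_mul, hG, hH, ← hdd]
    push_cast
    rw [C_mul]
    ring
  refine ⟨G, d, hdodd, hd, hG, ?_⟩
  · have h1 : (X * (1 + X) : (ZMod 2)[X]) * (G.map (Int.castRingHom (ZMod 2)) * H.map (Int.castRingHom (ZMod 2))) =
        X * (1 + X) * ((1 + X) ^ (n - 2) + X ^ (n - 2)) := by
      rw [← hP2, hPfac, hGH]
      simp only [Polynomial.map_mul, Polynomial.map_sub, Polynomial.map_X, Polynomial.map_one, Polynomial.map_ofNat]
      have h2 : (2 : (ZMod 2)[X]) = 0 := by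
        have : (2 : (ZMod 2)[X]) = C 2 := rfl
        rw [this]
        have : (2 : ZMod 2) = 0 := rfl
        rw [this, C_0]
      linear_combination (- (X * X * (X - 1) * (G.map (Int.castRingHom (ZMod 2)) * H.map (Int.castRingHom (ZMod 2)))) + X * X * (G.map (Int.castRingHom (ZMod 2)) * H.map (Int.castRingHom (ZMod 2)))) * h2
    have h3 : (X * (1 + X) : (ZMod 2)[X]) ≠ 0 := by
      apply mul_ne_zero X_ne_zero
      have : (1 + X : (ZMod 2)[X]) = X + C 1 := by rw [C_1]; ring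
      rw [this]
      exact X_add_C_ne_zero 1
    have h4 := mul_left_cancel₀ h3 h1
    exact ⟨_, h4.symm⟩

theorem natDeg (G : ℤ[X]) (d : ℕ) (g : ℚ[X]) (hg : g.Monic) (hdo : Odd d) (hd : 0 < d)
    (hG : G.map (Int.castRingHom ℚ) = C (d : ℚ) * g) :
    (G.map (Int.castRingHom (ZMod 2))).natDegree = g.natDegree := by
  have hdeg1 : G.natDegree = g.natDegree := by
    have h1 : (G.map (Int.castRingHom ℚ)).natDegree = G.natDegree :=
      natDegree_map_eq_of_injective Int.cast_injective G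
    rw [← h1, hG]
    apply natDegree_C_mul
    exact_mod_cast hd.ne'
  have hlead : G.leadingCoeff = (d : ℤ) := by
    have h1 : (G.map (Int.castRingHom ℚ)).leadingCoeff = (Int.castRingHom ℚ) G.leadingCoeff :=
      leadingCoeff_map_of_injective Int.cast_injective G
    rw [hG, leadingCoeff_mul, leadingCoeff_C, hg.leadingCoeff, mul_one] at h1
    have h2 : ((d : ℤ) : ℚ) = (G.leadingCoeff : ℚ) := by
      push_cast
      exact h1
    exact_mod_cast h2.symm
  rw [natDegree_map_of_leadingCoeff_ne_zero, hdeg1]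
  rw [hlead]
  intro h0
  have h1 : ((d : ℕ) : ZMod 2) = 0 := by
    simpa using h0
  rw [ZMod.natCast_eq_zero_iff] at h1
  exact (Nat.not_even_iff_odd.2 hdo) (even_iff_two_dvd.2 h1)

theorem s_MTP : S_MTP := by
  intro n hn ho g h hg hh hgh
  obtain ⟨G1, d, hdo, hd, hG1, hdvd⟩ := aux n hn ho (g * h) (hg.mul hh) hgh
  obtain ⟨G, H, c, c', hc, hc', hcc, hG, hH⟩ := gauss_fac G1 d hd g h hg hh hG1
  rw [← hcc] at hdo
  obtain ⟨hco, hco'⟩ := Nat.odd_mul.mp hdo
  refine ⟨G.map (Int.castRingHom (ZMod 2)), H.map (Int.castRingHom (ZMod 2)), ?_,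
    natDeg G c g hg hco hc hG, natDeg H c' h hh hco' hc' hH⟩
  have hGH : G1 = G * H := by
    apply bi7_inj
    show G1.map (Int.castRingHom ℚ) = (G * H).map (Int.castRingHom ℚ)
    rw [hG1, Polynomial.map_mul, hG, hH, ← hcc]
    push_cast
    rw [C_mul]
    ring
  rw [← Polynomial.map_mul, ← hGH]
  exact hdvd

end Pool.Agent.L7h73.BO
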